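import Pool.Agent.Helper83.RB.St

set_option autoImplicit false

namespace Pool.Agent.Helper42.RB

open Pool.Agent.Helper83.RB
open scoped commutatorElement

variable {G : Type} [Group G]

/-- The lower central series. -/
abbrev Gam (G : Type) [Group G] (i : ℕ) : Subgroup G := (⊤ : Subgroup G).lowerCentralSeries i

theorem com_mem {i : ℕ} {u : G} (hu : u ∈ Gam G i) (g : G) : ⁅u, g⁆ ∈ Gam G (i + 1) := by
  change ⁅u, g⁆ ∈ ⁅(⊤ : Subgroup G).lowerCentralSeries i, (⊤ : Subgroup G)⁆
  exact Subgroup.commutator_mem_commutator hu (Subgroup.mem_top g)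

theorem com_mem' {i : ℕ} {u : G} (hu : u ∈ Gam G i) (g : G) : ⁅g, u⁆ ∈ Gam G (i + 1) := by
  have h := (Gam G (i + 1)).inv_mem (com_mem hu g)
  rwa [commutatorElement_inv] at h

/-- Conjugation does not change membership in a subgroup above the next term. -/
theorem conj_mem {i : ℕ} {M : Subgroup G} (hM : Gam G (i + 2) ≤ M) {x : G}
    (hx : x ∈ Gam G (i + 1)) (hxM : x ∈ M) (g : G) : g * x * g⁻¹ ∈ M := by
  have h1 : g * x * g⁻¹ = ⁅g, x⁆ * x := by
    rw [commutatorElement_def]; group
  rw [h1]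
  exact M.mul_mem (hM (com_mem' hx g)) hxM

/-- First variable fixed. -/
theorem com_all_right {i : ℕ} {M : Subgroup G} (hM : Gam G (i + 2) ≤ M) {u : G}
    (hu : u ∈ Gam G i) {S : Set G} (hS : Subgroup.closure S = ⊤)
    (hSM : ∀ g ∈ S, ⁅u, g⁆ ∈ M) (g : G) : ⁅u, g⁆ ∈ M := by
  have hg : g ∈ Subgroup.closure S := by rw [hS]; exact Subgroup.mem_top g
  induction hg using Subgroup.closure_induction with
  | mem x hx => exact hSM x hx
  | one => rw [commutatorElement_one_right]; exact M.one_mem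
  | mul x y _ _ hx hy =>
    have h1 : ⁅u, x * y⁆ = ⁅u, x⁆ * (x * ⁅u, y⁆ * x⁻¹) := by
      simp only [commutatorElement_def]; group
    rw [h1]
    exact M.mul_mem hx (conj_mem hM (com_mem hu y) hy x)
  | inv x _ hx =>
    have h1 : ⁅u, x⁻¹⁆ = x⁻¹ * ⁅u, x⁆⁻¹ * x⁻¹⁻¹ := by
      simp only [commutatorElement_def]; group
    rw [h1]
    exact conj_mem hM ((Gam G (i + 1)).inv_mem (com_mem hu x)) (M.inv_mem hx) x⁻¹

/-- Both variables. -/
theorem com_all {i : ℕ} {M : Subgroup G} (hM : Gam G (i + 2) ≤ M) {T : Set G}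
    (hT : T ⊆ (Gam G i : Set G)) (hTM : ∀ u ∈ T, ∀ g : G, ⁅u, g⁆ ∈ M)
    (hTG : Gam G i ≤ Subgroup.closure T ⊔ Gam G (i + 1)) :
    Gam G (i + 1) ≤ M := by
  have key : ∀ u ∈ Subgroup.closure (T ∪ (Gam G (i + 1) : Set G)),
      u ∈ Gam G i ∧ ∀ g : G, ⁅u, g⁆ ∈ M := by
    intro u hu
    induction hu using Subgroup.closure_induction with
    | mem x hx =>
      rcases hx with hx | hx
      · exact ⟨hT hx, hTM x hx⟩
      · refine ⟨Subgroup.lowerCentralSeries_antitone _ (Nat.le_succ i) hx, fun g => ?_⟩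
        exact hM (com_mem hx g)
    | one =>
      refine ⟨Subgroup.one_mem _, fun g => ?_⟩
      rw [commutatorElement_one_left]; exact M.one_mem
    | mul x y _ _ hx hy =>
      refine ⟨Subgroup.mul_mem _ hx.1 hy.1, fun g => ?_⟩
      have h1 : ⁅x * y, g⁆ = (x * ⁅y, g⁆ * x⁻¹) * ⁅x, g⁆ := by
        simp only [commutatorElement_def]; group
      rw [h1]
      exact M.mul_mem (conj_mem hM (com_mem hy.1 g) (hy.2 g) x) (hx.2 g)
    | inv x _ hx =>
      refine ⟨Subgroup.inv_mem _ hx.1, fun g => ?_⟩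
      have h1 : ⁅x⁻¹, g⁆ = x⁻¹ * ⁅x, g⁆⁻¹ * x⁻¹⁻¹ := by
        simp only [commutatorElement_def]; group
      rw [h1]
      exact conj_mem hM ((Gam G (i + 1)).inv_mem (com_mem hx.1 g)) (M.inv_mem (hx.2 g)) x⁻¹
  have hcl : Subgroup.closure (T ∪ (Gam G (i + 1) : Set G)) =
      Subgroup.closure T ⊔ Gam G (i + 1) := by
    rw [Subgroup.closure_union, Subgroup.closure_eq]
  change ⁅(⊤ : Subgroup G).lowerCentralSeries i, (⊤ : Subgroup G)⁆ ≤ M
  rw [Subgroup.commutator_le]
  intro u hu g _
  exact (key u (by rw [hcl]; exact hTG hu)).2 g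

/-- Generators of the factors. -/
theorem gens [Finite G] {m : ℕ} (f : Fin m → G) (hf : Subgroup.closure (Set.range f) = ⊤)
    (i : ℕ) : ∃ S : Finset G, S.card ≤ m ^ (i + 1) ∧ (S : Set G) ⊆ (Gam G i : Set G) ∧
      Gam G i ≤ Subgroup.closure (S : Set G) ⊔ Gam G (i + 1) := by
  classical
  have hF : ((Finset.univ.image f : Finset G) : Set G) = Set.range f := by
    rw [Finset.coe_image, Finset.coe_univ, Set.image_univ]
  have hFc : (Finset.univ.image f : Finset G).card ≤ m := by
    refine Finset.card_image_le.trans ?_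
    rw [Finset.card_univ, Fintype.card_fin]
  induction i with
  | zero =>
    refine ⟨Finset.univ.image f, ?_, ?_, ?_⟩
    · simpa using hFc
    · intro x _
      exact Subgroup.mem_top x
    · rw [hF, hf, top_sup_eq]
      exact le_top
  | succ i ih =>
    obtain ⟨S, hSc, hS, hSG⟩ := ih
    refine ⟨Finset.image₂ (fun a b => ⁅a, b⁆) S (Finset.univ.image f), ?_, ?_, ?_⟩
    · calc (Finset.image₂ (fun a b => ⁅a, b⁆) S (Finset.univ.image f)).card
          ≤ S.card * (Finset.univ.image f : Finset G).card := Finset.card_image₂_le _ _ _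
        _ ≤ m ^ (i + 1) * m := Nat.mul_le_mul hSc hFc
        _ = m ^ (i + 1 + 1) := (pow_succ _ _).symm
    · intro x hx
      rw [Finset.mem_coe, Finset.mem_image₂] at hx
      obtain ⟨a, ha, b, _, rfl⟩ := hx
      exact com_mem (hS ha) b
    · refine com_all (i := i) ?_ hS ?_ hSG
      · exact le_sup_right
      · intro u hu
        refine com_all_right (i := i) le_sup_right (hS hu) hf ?_
        intro g hg
        apply Subgroup.mem_sup_left
        apply Subgroup.subset_closure
        rw [Finset.mem_coe, Finset.mem_image₂]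
        refine ⟨u, hu, g, ?_, rfl⟩
        rw [← Finset.mem_coe, hF]
        exact hg

/-- Adding one normalising element of order dividing `p`. -/
theorem card_step [Finite G] {p : ℕ} (hp : 0 < p) (H : Subgroup G) (s : G) (hs : s ^ p = 1)
    (hn : ∀ h ∈ H, s * h * s⁻¹ ∈ H) :
    Nat.card (Subgroup.closure {s} ⊔ H : Subgroup G) ≤ p * Nat.card H := by
  classical
  have hn' : ∀ n : ℕ, ∀ h ∈ H, s ^ n * h * (s ^ n)⁻¹ ∈ H := by
    intro n
    induction n with
    | zero => intro h hh; simpa using hh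
    | succ n ih =>
      intro h hh
      have h1 : s ^ (n + 1) * h * (s ^ (n + 1))⁻¹ = s * (s ^ n * h * (s ^ n)⁻¹) * s⁻¹ := by
        rw [pow_succ' s n]; group
      rw [h1]
      exact hn _ (ih h hh)
  have hinv : s⁻¹ = s ^ (p - 1) := by
    rw [inv_eq_iff_mul_eq_one]
    rw [← pow_succ', Nat.sub_add_cancel hp, hs]
  have hmod : ∀ n : ℕ, s ^ n = s ^ (n % p) := by
    intro n
    conv_lhs => rw [← Nat.div_add_mod n p]
    rw [pow_add, pow_mul, hs, one_pow, one_mul]
  -- every element is `h * s ^ a`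
  have hform : ∀ x ∈ Subgroup.closure ({s} ∪ (H : Set G)), ∃ h ∈ H, ∃ a : ℕ, x = h * s ^ a := by
    intro x hx
    induction hx using Subgroup.closure_induction with
    | mem x hx =>
      rcases hx with hx | hx
      · rw [Set.mem_singleton_iff] at hx
        exact ⟨1, H.one_mem, 1, by rw [hx]; simp⟩
      · exact ⟨x, hx, 0, by simp⟩
    | one => exact ⟨1, H.one_mem, 0, by simp⟩
    | mul x y _ _ hx hy =>
      obtain ⟨h, hh, a, rfl⟩ := hx
      obtain ⟨k, hk, b, rfl⟩ := hy
      refine ⟨h * (s ^ a * k * (s ^ a)⁻¹), H.mul_mem hh (hn' a k hk), a + b, ?_⟩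
      rw [pow_add]; group
    | inv x _ hx =>
      obtain ⟨h, hh, a, rfl⟩ := hx
      have h2 : (s ^ a)⁻¹ = s ^ ((p - 1) * a) := by
        rw [← inv_pow, hinv, ← pow_mul]
      refine ⟨s ^ ((p - 1) * a) * h⁻¹ * (s ^ ((p - 1) * a))⁻¹,
        hn' _ _ (H.inv_mem hh), (p - 1) * a, ?_⟩
      rw [mul_inv_rev, h2]
      group
  have hcl : Subgroup.closure ({s} ∪ (H : Set G)) = Subgroup.closure {s} ⊔ H := by
    rw [Subgroup.closure_union, Subgroup.closure_eq]
  rw [← hcl]
  have hsm : s ∈ Subgroup.closure (({s} : Set G) ∪ (H : Set G)) :=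
    Subgroup.subset_closure (Set.mem_union_left _ (Set.mem_singleton s))
  let F : Fin p × H → (Subgroup.closure (({s} : Set G) ∪ (H : Set G)) : Subgroup G) := fun q =>
    ⟨(q.2 : G) * s ^ (q.1 : ℕ),
      Subgroup.mul_mem _ (Subgroup.subset_closure (Set.mem_union_right _ q.2.2))
        (Subgroup.pow_mem _ hsm _)⟩
  have hF : Function.Surjective F := by
    rintro ⟨x, hx⟩
    obtain ⟨h, hh, a, rfl⟩ := hform x hx
    refine ⟨(⟨a % p, Nat.mod_lt _ hp⟩, ⟨h, hh⟩), ?_⟩
    apply Subtype.ext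
    change h * s ^ (a % p) = h * s ^ a
    rw [← hmod a]
  calc Nat.card (Subgroup.closure (({s} : Set G) ∪ (H : Set G)) : Subgroup G)
      ≤ Nat.card (Fin p × H) := Nat.card_le_card_of_surjective F hF
    _ = p * Nat.card H := by rw [Nat.card_prod, Nat.card_fin]

/-- The order of one layer. -/
theorem card_layer [Finite G] {p : ℕ} (hp : 0 < p) (hexp : ∀ g : G, g ^ p = 1) (i : ℕ)
    (S : Finset G) : (S : Set G) ⊆ (Gam G i : Set G) →
    Nat.card (Subgroup.closure (S : Set G) ⊔ Gam G (i + 1) : Subgroup G) ≤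
      p ^ S.card * Nat.card (Gam G (i + 1)) := by
  classical
  induction S using Finset.induction_on with
  | empty =>
    intro _
    rw [Finset.coe_empty, Subgroup.closure_empty, bot_sup_eq, Finset.card_empty, pow_zero,
      one_mul]
  | insert a S ha ih =>
    intro hS
    have hS' : (S : Set G) ⊆ (Gam G i : Set G) := by
      intro x hx
      exact hS (by rw [Finset.coe_insert]; exact Set.mem_insert_of_mem _ hx)
    have hai : a ∈ Gam G i := hS (by rw [Finset.coe_insert]; exact Set.mem_insert _ _)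
    have h1 : Subgroup.closure ((insert a S : Finset G) : Set G) ⊔ Gam G (i + 1) =
        Subgroup.closure {a} ⊔ (Subgroup.closure (S : Set G) ⊔ Gam G (i + 1)) := by
      rw [Finset.coe_insert, Set.insert_eq, Subgroup.closure_union, sup_assoc]
    rw [h1]
    have h2 := card_step hp (Subgroup.closure (S : Set G) ⊔ Gam G (i + 1)) a (hexp a) (by
      intro h hh
      have h3 : a * h * a⁻¹ = ⁅a, h⁆ * h := by
        rw [commutatorElement_def]; group
      rw [h3]
      refine Subgroup.mul_mem _ (Subgroup.mem_sup_right (com_mem hai h)) hh)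
    refine h2.trans ?_
    rw [Finset.card_insert_of_notMem ha, pow_succ']
    rw [mul_assoc]
    exact Nat.mul_le_mul_left _ (ih hS')

theorem sum_bound (m e : ℕ) : ∑ i ∈ Finset.range e, m ^ (i + 1) ≤ (m + 1) ^ (e + 1) := by
  induction e with
  | zero => simp
  | succ e ih =>
    rw [Finset.sum_range_succ]
    have h1 : m ^ (e + 1) ≤ m * (m + 1) ^ (e + 1) := by
      rw [pow_succ' m e]
      refine Nat.mul_le_mul_left _ ?_
      exact (Nat.pow_le_pow_left (Nat.le_succ m) e).trans
        (Nat.pow_le_pow_right (Nat.succ_pos m) (Nat.le_succ e))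
    calc ∑ i ∈ Finset.range e, m ^ (i + 1) + m ^ (e + 1)
        ≤ (m + 1) ^ (e + 1) + m * (m + 1) ^ (e + 1) := Nat.add_le_add ih h1
      _ = (m + 1) ^ (e + 1 + 1) := by ring

theorem hORD : StORD := by
  intro p m e _ G _ _ hexp f hf he
  have hp : 0 < p := (Fact.out : p.Prime).pos
  have key : ∀ k : ℕ, Nat.card G ≤ p ^ (∑ i ∈ Finset.range k, m ^ (i + 1)) *
      Nat.card (Gam G k) := by
    intro k
    induction k with
    | zero =>
      rw [Finset.sum_range_zero, pow_zero, one_mul]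
      change Nat.card G ≤ Nat.card (⊤ : Subgroup G)
      rw [Subgroup.card_top]
    | succ k ih =>
      obtain ⟨S, hSc, hS, hSG⟩ := gens f hf k
      refine ih.trans ?_
      rw [Finset.sum_range_succ, pow_add, mul_assoc]
      refine Nat.mul_le_mul_left _ ?_
      calc Nat.card (Gam G k)
          ≤ Nat.card (Subgroup.closure (S : Set G) ⊔ Gam G (k + 1) : Subgroup G) :=
            Subgroup.card_le_of_le hSG
        _ ≤ p ^ S.card * Nat.card (Gam G (k + 1)) := card_layer hp hexp k S hS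
        _ ≤ p ^ (m ^ (k + 1)) * Nat.card (Gam G (k + 1)) :=
            Nat.mul_le_mul_right _ (Nat.pow_le_pow_right hp hSc)
  have h1 := key e
  have h2 : Nat.card (Gam G e) = 1 := by
    change Nat.card ((⊤ : Subgroup G).lowerCentralSeries e) = 1
    rw [he, Subgroup.card_bot]
  rw [h2, mul_one] at h1
  exact h1.trans (Nat.pow_le_pow_right hp (sum_bound m e))

end Pool.Agent.Helper42.RB
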